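import Pool.Agent.Helper36.LM.Defs

/-!
# LM-B2: arithmetic of the potential
-/

set_option autoImplicit false

namespace Pool.Agent.Helper36.LM

open Module Finset

namespace Conf

variable {K : Type} [Field K] {E : Type} [AddCommGroup E] [Module K E] {ι : Type} [Fintype ι]

theorem one_card_le (C : Conf K E ι) : C.one.card ≤ Fintype.card ι :=
  Finset.card_le_univ _

theorem num_le (C : Conf K E ι) : C.num ≤ Fintype.card ι ^ 2 := by
  classical
  unfold num
  refine (Finset.card_filter_le _ _).trans ?_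
  rw [Finset.card_product, sq]
  exact Nat.mul_le_mul (one_card_le C) (one_card_le C)

theorem pot_lt_of_rnk {C C' : Conf K E ι} (h : C.rnk < C'.rnk) : C.pot < C'.pot := by
  have h1 := one_card_le C
  have h2 := num_le C
  unfold pot
  set m := Fintype.card ι
  have h3 : C.rnk * (m + 1) + C.one.card + 1 ≤ C'.rnk * (m + 1) + C'.one.card := by
    have : (C.rnk + 1) * (m + 1) ≤ C'.rnk * (m + 1) := Nat.mul_le_mul_right _ h
    linarith
  have h4 := Nat.mul_le_mul_right (m ^ 2 + 1) h3
  linarith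

theorem pot_lt_of_one {C C' : Conf K E ι} (h : C.rnk = C'.rnk) (h1 : C.one.card < C'.one.card) :
    C.pot < C'.pot := by
  have h2 := num_le C
  unfold pot
  rw [h]
  set m := Fintype.card ι
  have h3 : C'.rnk * (m + 1) + C.one.card + 1 ≤ C'.rnk * (m + 1) + C'.one.card := by omega
  have h4 := Nat.mul_le_mul_right (m ^ 2 + 1) h3
  linarith

theorem pot_lt_of_num {C C' : Conf K E ι} (h : C.rnk = C'.rnk) (h1 : C.one.card = C'.one.card)
    (h2 : C.num < C'.num) : C.pot < C'.pot := by
  unfold pot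
  rw [h, h1]
  omega

theorem pot_le_of {C C' : Conf K E ι} (h : C.rnk = C'.rnk) (h1 : C.one ⊆ C'.one)
    (h2 : ∀ i ∈ C.one, ∀ k ∈ C.one, C.adj i k → C'.adj i k) : C.pot ≤ C'.pot := by
  classical
  have h3 := Finset.card_le_card h1
  have h4 : C.num ≤ C'.num := by
    unfold num
    refine Finset.card_le_card ?_
    intro p hp
    rw [Finset.mem_filter, Finset.mem_product] at hp ⊢
    exact ⟨⟨h1 hp.1.1, h1 hp.1.2⟩, h2 _ hp.1.1 _ hp.1.2 hp.2⟩
  unfold pot
  rw [h]
  gcongr

/-- ... with a strict inequality if there is a new pair -/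
theorem pot_lt_of {C C' : Conf K E ι} (h : C.rnk = C'.rnk) (h1 : C.one ⊆ C'.one)
    (h2 : ∀ i ∈ C.one, ∀ k ∈ C.one, C.adj i k → C'.adj i k) {i k : ι} (hi : i ∈ C.one)
    (hk : k ∈ C.one) (h3 : ¬ C.adj i k) (h4 : C'.adj i k) : C.pot < C'.pot := by
  classical
  rcases (Finset.card_le_card h1).lt_or_eq with h5 | h5
  · exact pot_lt_of_one h h5
  · refine pot_lt_of_num h h5 ?_
    unfold num
    refine Finset.card_lt_card ?_
    rw [Finset.ssubset_iff_of_subset]
    · refine ⟨(i, k), ?_, ?_⟩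
      · rw [Finset.mem_filter, Finset.mem_product]
        exact ⟨⟨h1 hi, h1 hk⟩, h4⟩
      · rw [Finset.mem_filter]
        exact fun h' => h3 h'.2
    · intro p hp
      rw [Finset.mem_filter, Finset.mem_product] at hp ⊢
      exact ⟨⟨h1 hp.1.1, h1 hp.1.2⟩, h2 _ hp.1.1 _ hp.1.2 hp.2⟩

end Conf

end Pool.Agent.Helper36.LM
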